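import Pool.Agent.helper62.LL.SpecG
import Pool.Agent.helper62.RS.GLC
import Pool.Agent.helper72.EN.XTX

/-!
# Row ll:ENR: the energy estimate for crossing geodesics
-/

set_option autoImplicit false

open scoped MatrixGroups ContDiff Topology UpperHalfPlane
open UpperHalfPlane MeasureTheory Filter Set

namespace Pool.Agent.LL

open Pool.Agent.EN (XG MG mkX mkM fl pr)

/-- `EN.XFL_stmt` with the light import `RS.GLC`; the proof is the one of `Pool.Agent.helper62.EN.XFL`. -/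
theorem ENR_XFL : EN.XFL_stmt := by
  intro Γ
  have hglc := RS.GLC
  obtain ⟨-, -, -, haM, -, -, -, -, -, -, hadd, -⟩ := hglc
  have haM0 : RS.aM 0 = 1 := by
    have h := hadd 0 0
    rw [add_zero] at h
    have h2 : RS.aM 0 * 1 = RS.aM 0 * RS.aM 0 := by rw [mul_one]; exact h
    exact (mul_left_cancel h2).symm
  have hc1 : Continuous (mkX Γ) := continuous_quotient_mk'
  have ho1 : IsOpenMap (mkX Γ) := isOpenMap_quotient_mk'_mul
  have hs1 : Function.Surjective (mkX Γ) := Quotient.mk_surjective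
  have hc2 : Continuous (mkM Γ) := continuous_quotient_mk'
  have ho2 : IsOpenMap (mkM Γ) := isOpenMap_quotient_mk'_mul
  have hs2 : Function.Surjective (mkM Γ) := Quotient.mk_surjective
  have hfl : ∀ t g, fl Γ t (mkX Γ g) = mkX Γ (g * RS.aM t) := fun t g => rfl
  have hpr : ∀ g, pr Γ (mkX Γ g) = mkM Γ (g • I) := fun g => rfl
  refine ⟨⟨?_, ?_, ?_⟩, ?_, hc1, ho1, hs1, hc2, ho2, hs2, hfl, hpr, ?_, ?_⟩
  · have hq : IsOpenQuotientMap (Prod.map (id : ℝ → ℝ) (mkX Γ)) :=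
      ⟨Function.surjective_id.prodMap hs1, continuous_id.prodMap hc1, IsOpenMap.id.prodMap ho1⟩
    rw [hq.isQuotientMap.continuous_iff]
    have : (fun q : ℝ × XG Γ => fl Γ q.1 q.2) ∘ Prod.map (id : ℝ → ℝ) (mkX Γ) =
        fun q : ℝ × SL(2, ℝ) => mkX Γ (q.2 * RS.aM q.1) := by
      funext q
      rfl
    rw [this]
    exact hc1.comp (continuous_snd.mul (haM.comp continuous_fst))
  · intro x
    obtain ⟨g, rfl⟩ := hs1 x
    rw [hfl, haM0, mul_one]
  · intro s t x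
    obtain ⟨g, rfl⟩ := hs1 x
    rw [hfl, hfl, hfl, mul_assoc, ← hadd, add_comm]
  · have hq : IsOpenQuotientMap (mkX Γ) := ⟨hs1, hc1, ho1⟩
    rw [hq.isQuotientMap.continuous_iff]
    have : pr Γ ∘ mkX Γ = fun g => mkM Γ (g • I) := by
      funext g
      rfl
    rw [this]
    exact hc2.comp (continuous_id.smul continuous_const)
  · intro g g'
    constructor
    · intro h
      obtain ⟨γ, hγ⟩ := Quotient.exact h
      refine ⟨γ⁻¹, ?_⟩
      have h2 : (γ : SL(2, ℝ)) * g' = g := hγ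
      rw [← h2, ← mul_assoc]
      simp
    · rintro ⟨γ, h⟩
      refine Quotient.sound ⟨γ⁻¹, ?_⟩
      show ((γ⁻¹ : Γ) : SL(2, ℝ)) * g' = g
      rw [← h, ← mul_assoc]
      simp
  · intro z z'
    constructor
    · intro h
      obtain ⟨γ, hγ⟩ := Quotient.exact h
      refine ⟨γ⁻¹, ?_⟩
      have h2 : γ • z' = z := hγ
      rw [← h2, inv_smul_smul]
    · rintro ⟨γ, h⟩
      refine Quotient.sound ⟨γ⁻¹, ?_⟩
      show γ⁻¹ • z' = z
      rw [← h, inv_smul_smul]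

theorem ENR_cosh (h : SL(2, ℝ)) : Real.cosh (dist (h • I) I) =
    (h.1 0 0 ^ 2 + h.1 0 1 ^ 2 + h.1 1 0 ^ 2 + h.1 1 1 ^ 2) / 2 := by
  rw [UpperHalfPlane.cosh_dist]
  have hdet : h.1 0 0 * h.1 1 1 - h.1 0 1 * h.1 1 0 = 1 := by
    have := h.2
    rwa [Matrix.det_fin_two] at this
  set a := h.1 0 0
  set b := h.1 0 1
  set c := h.1 1 0
  set d := h.1 1 1
  have hN : 0 < c ^ 2 + d ^ 2 := by
    rcases eq_or_ne c 0 with hc | hc
    · have hd : d ≠ 0 := by rintro hd; rw [hc, hd] at hdet; simp at hdet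
      positivity
    · positivity
  have hz : ((h • I : ℍ) : ℂ) = ((a : ℂ) * Complex.I + b) / ((c : ℂ) * Complex.I + d) := by
    rw [UpperHalfPlane.coe_specialLinearGroup_apply]
    simp [a, b, c, d]
  have hne : (c : ℂ) * Complex.I + d ≠ 0 := by
    intro h0
    have h1 : Complex.normSq ((c : ℂ) * Complex.I + d) = c ^ 2 + d ^ 2 := by
      rw [Complex.normSq_apply]; simp; ring
    rw [h0] at h1
    simp at h1
    linarith
  have him : (h • I : ℍ).im = 1 / (c ^ 2 + d ^ 2) := by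
    have h1 : (h • I : ℍ).im = (((a : ℂ) * Complex.I + b) / ((c : ℂ) * Complex.I + d)).im := by
      rw [← hz]; rfl
    rw [h1, Complex.div_im]
    have h2 : Complex.normSq ((c : ℂ) * Complex.I + d) = c ^ 2 + d ^ 2 := by
      rw [Complex.normSq_apply]; simp; ring
    rw [h2]
    simp
    field_simp
    linarith
  have hdist : dist ((h • I : ℍ) : ℂ) ((I : ℍ) : ℂ) ^ 2 =
      ((b + c) ^ 2 + (a - d) ^ 2) / (c ^ 2 + d ^ 2) := by
    rw [Complex.dist_eq, ← Complex.normSq_eq_norm_sq, hz]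
    have h3 : ((a : ℂ) * Complex.I + b) / ((c : ℂ) * Complex.I + d) - ((I : ℍ) : ℂ) =
        (((b + c : ℝ) : ℂ) + ((a - d : ℝ) : ℂ) * Complex.I) / ((c : ℂ) * Complex.I + d) := by
      rw [UpperHalfPlane.coe_I, eq_div_iff hne, sub_mul, div_mul_cancel₀ _ hne]
      push_cast
      linear_combination (-(c : ℂ)) * Complex.I_sq
    rw [h3, map_div₀]
    congr 1
    · rw [Complex.normSq_apply]; simp; ring
    · rw [Complex.normSq_apply]; simp; ring
  rw [hdist, him, UpperHalfPlane.I_im]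
  field_simp
  nlinarith

theorem ENR_ent (h : SL(2, ℝ)) (hd : dist (h • I) I ≤ 2) (i j : Fin 2) : |h.1 i j| ≤ 4 := by
  have h1 := ENR_cosh h
  have h2 : Real.cosh (dist (h • I) I) ≤ Real.cosh 2 := by
    rw [Real.cosh_le_cosh, abs_of_nonneg dist_nonneg, abs_of_pos (by norm_num : (0:ℝ) < 2)]
    exact hd
  have h3 : Real.cosh 2 ≤ 8 := by
    rw [Real.cosh_eq]
    have e1 : Real.exp 2 = Real.exp 1 ^ 2 := by rw [← Real.exp_nat_mul]; norm_num
    have e2 := Real.exp_one_lt_d9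
    have e3 := Real.exp_pos 1
    have e4 : Real.exp (-2) ≤ 1 := by rw [Real.exp_le_one_iff]; norm_num
    nlinarith
  have h4 : h.1 0 0 ^ 2 + h.1 0 1 ^ 2 + h.1 1 0 ^ 2 + h.1 1 1 ^ 2 ≤ 16 := by linarith
  apply abs_le_of_sq_le_sq _ (by norm_num)
  fin_cases i <;> fin_cases j <;> simp only [Fin.zero_eta, Fin.mk_one, Fin.isValue] <;>
    nlinarith [sq_nonneg (h.1 0 0), sq_nonneg (h.1 0 1), sq_nonneg (h.1 1 0), sq_nonneg (h.1 1 1)]

theorem ENR_aM (t : ℝ) : dist (RS.aM t • I) I = |t| := by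
  obtain ⟨-, -, -, -, -, -, -, hz, -⟩ := RS.GLC
  have h1 := hz t I
  have hre : (RS.aM t • I : ℍ).re = (I : ℍ).re := by
    have : (RS.aM t • I : ℍ).re = ((RS.aM t • I : ℍ) : ℂ).re := rfl
    rw [this, h1, UpperHalfPlane.coe_I, UpperHalfPlane.I_re]
    simp
  have him : (RS.aM t • I : ℍ).im = Real.exp t := by
    have : (RS.aM t • I : ℍ).im = ((RS.aM t • I : ℍ) : ℂ).im := rfl
    rw [this, h1, UpperHalfPlane.coe_I]
    simp
    exact Complex.exp_ofReal_re t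
  rw [UpperHalfPlane.dist_of_re_eq hre, him, UpperHalfPlane.I_im, Real.log_exp, Real.log_one,
    Real.dist_eq, sub_zero]

/-- the bound for one `h` -/
theorem ENR_one (V C ρ w θ : ℝ) (hV : 0 ≤ V) (hρ : 0 < ρ) (hρ1 : ρ ≤ 1) (hw : 0 < w) (hw1 : w ≤ 1)
    (hC : 0 < C) (h1 : V ≤ C * ρ) (h2 : V * θ ≤ C * ρ ^ 2) :
    (1 < θ → V ≤ C * ρ ^ (1 + w)) ∧ (θ ≤ 1 → ∃ n : ℕ, θ ≤ Real.exp (-n) ∧
      V ≤ C * ρ ^ (1 + w) * Real.exp ((n + 1) * w)) := by
  constructor
  · intro hθ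
    have e1 : V ≤ V * θ := by nlinarith
    have e2 : ρ ^ 2 ≤ ρ ^ (1 + w) := by
      rw [← Real.rpow_natCast ρ 2]
      apply Real.rpow_le_rpow_of_exponent_ge hρ hρ1
      push_cast; linarith
    nlinarith
  · intro hθ
    set m := max θ ρ with hm
    have hm0 : 0 < m := lt_of_lt_of_le hρ (le_max_right _ _)
    have hm1 : m ≤ 1 := max_le hθ hρ1
    have hlog : 0 ≤ -Real.log m := by
      have := Real.log_nonpos hm0.le hm1
      linarith
    refine ⟨⌊-Real.log m⌋₊, ?_, ?_⟩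
    · have e1 := Nat.floor_le hlog
      calc θ ≤ m := le_max_left _ _
        _ = Real.exp (Real.log m) := (Real.exp_log hm0).symm
        _ ≤ _ := Real.exp_le_exp.mpr (by linarith)
    · have e1 := Nat.lt_floor_add_one (-Real.log m)
      have e2 : V * m ^ w ≤ C * ρ ^ (1 + w) := by
        rcases le_total θ ρ with hθρ | hθρ
        · rw [hm, max_eq_right hθρ, Real.rpow_add hρ, Real.rpow_one]
          calc V * ρ ^ w ≤ (C * ρ) * ρ ^ w :=
                mul_le_mul_of_nonneg_right h1 (Real.rpow_nonneg hρ.le _)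
            _ = _ := by ring
        · have hθ0 : 0 < θ := lt_of_lt_of_le hρ hθρ
          rw [hm, max_eq_left hθρ]
          have e3 : θ ^ w = θ * θ ^ (w - 1) := by
            rw [Real.rpow_sub_one hθ0.ne']
            field_simp
          have e4 : θ ^ (w - 1) ≤ ρ ^ (w - 1) :=
            Real.rpow_le_rpow_of_nonpos hρ hθρ (by linarith)
          have e5 : ρ ^ (1 + w) = ρ ^ 2 * ρ ^ (w - 1) := by
            rw [← Real.rpow_natCast ρ 2, ← Real.rpow_add hρ]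
            congr 1; push_cast; ring
          rw [e3, e5]
          calc V * (θ * θ ^ (w - 1)) = (V * θ) * θ ^ (w - 1) := by ring
            _ ≤ (C * ρ ^ 2) * ρ ^ (w - 1) := by
                apply mul_le_mul h2 e4 (Real.rpow_nonneg hθ0.le _) (by positivity)
            _ = _ := by ring
      have e6 : Real.exp (-((⌊-Real.log m⌋₊ + 1 : ℝ) * w)) ≤ m ^ w := by
        rw [Real.rpow_def_of_pos hm0]
        apply Real.exp_le_exp.mpr
        nlinarith
      calc V = V * (Real.exp (-((⌊-Real.log m⌋₊ + 1 : ℝ) * w)) *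
              Real.exp ((⌊-Real.log m⌋₊ + 1 : ℝ) * w)) := by
              rw [← Real.exp_add]; simp
        _ ≤ V * (m ^ w * Real.exp ((⌊-Real.log m⌋₊ + 1 : ℝ) * w)) := by
              apply mul_le_mul_of_nonneg_left _ hV
              exact mul_le_mul_of_nonneg_right e6 (Real.exp_pos _).le
        _ = (V * m ^ w) * Real.exp ((⌊-Real.log m⌋₊ + 1 : ℝ) * w) := by ring
        _ ≤ _ := mul_le_mul_of_nonneg_right e2 (Real.exp_pos _).le

/-- the pairs of times -/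
def ENR_S (ρ : ℝ) (h : SL(2, ℝ)) : Set (ℝ × ℝ) :=
  {u | u ∈ Sq ∧ dist (RS.aM u.1 • I) ((h * RS.aM u.2) • I) < ρ}

theorem ENR_cover (Γ : Subgroup SL(2, ℝ)) (g : SL(2, ℝ)) (y : XG Γ) (ρ : ℝ) (hρ1 : ρ ≤ 1) :
    {u : ℝ × ℝ | u ∈ Sq ∧ DX Γ ρ (fl Γ u.1 (mkX Γ g)) (fl Γ u.2 y)} ⊆
      ⋃ h ∈ {h : SL(2, ℝ) | y = mkX Γ (g * h) ∧ dist (h • I) I ≤ 2}, ENR_S ρ h := by
  obtain ⟨-, -, -, -, hsX, -, -, -, hfl, -, heq, -⟩ := ENR_XFL Γ
  rintro ⟨s, t⟩ ⟨hu, g1, g2, e1, e2, hd⟩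
  obtain ⟨g', rfl⟩ := hsX y
  simp only at e1 e2
  rw [hfl] at e1 e2
  obtain ⟨γ, hγ⟩ := (heq _ _).mp e1
  obtain ⟨γ', hγ'⟩ := (heq _ _).mp e2
  have hy : mkX Γ g' = mkX Γ (g * (g⁻¹ * (γ : SL(2, ℝ))⁻¹ * (γ' : SL(2, ℝ)) * g')) := by
    rw [heq]
    refine ⟨γ⁻¹ * γ', ?_⟩
    push_cast
    group
  set h : SL(2, ℝ) := g⁻¹ * (γ : SL(2, ℝ))⁻¹ * (γ' : SL(2, ℝ)) * g' with hh
  have hdist : dist (RS.aM s • I) ((h * RS.aM t) • I) < ρ := by
    have e3 : dist (RS.aM s • I) ((h * RS.aM t) • I) =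
        dist (((γ : SL(2, ℝ)) * g) • (RS.aM s • I)) (((γ : SL(2, ℝ)) * g) • ((h * RS.aM t) • I)) :=
      (dist_smul _ _ _).symm
    rw [e3, ← mul_smul, ← mul_smul, mul_assoc, hγ]
    have e4 : (γ : SL(2, ℝ)) * g * (h * RS.aM t) = g2 := by
      rw [← hγ', hh]; group
    rw [e4]
    exact hd
  have hu' : 0 ≤ s ∧ s ≤ 1 / 4 ∧ 0 ≤ t ∧ t ≤ 1 / 4 := by
    obtain ⟨⟨a1, a2⟩, a3, a4⟩ := hu
    exact ⟨a1, a2, a3, a4⟩
  have hd2 : dist (h • I) I ≤ 2 := by
    have f1 : dist (h • I) ((h * RS.aM t) • I) = |t| := by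
      have e5 : (h * RS.aM t) • I = h • (RS.aM t • I) := mul_smul _ _ _
      rw [e5, dist_smul, dist_comm, ENR_aM]
    have f2 : dist (RS.aM s • I) I = |s| := ENR_aM s
    have f3 : dist (h • I) I ≤ dist (h • I) ((h * RS.aM t) • I) +
        dist ((h * RS.aM t) • I) (RS.aM s • I) + dist (RS.aM s • I) I := dist_triangle4 _ _ _ _
    rw [f1, f2, dist_comm ((h * RS.aM t) • I), abs_of_nonneg hu'.1, abs_of_nonneg hu'.2.2.1] at f3
    linarith
  exact Set.mem_biUnion (show h ∈ {h : SL(2, ℝ) | mkX Γ g' = mkX Γ (g * h) ∧ dist (h • I) I ≤ 2}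
    from ⟨hy, hd2⟩) ⟨hu, hdist⟩

/-- the points with a small `th h` -/
def ENR_Y (Γ : Subgroup SL(2, ℝ)) (g : SL(2, ℝ)) (n : ℕ) : Set (XG Γ) :=
  {y | ∃ h : SL(2, ℝ), (y = mkX Γ (g * h) ∧ dist (h • I) I ≤ 2) ∧ th h ≤ Real.exp (-n)}

theorem ENR_Yc (Γ : Subgroup SL(2, ℝ)) (hΓ : QU.SurfaceGroup Γ) (g : SL(2, ℝ)) (n : ℕ) :
    IsClosed (ENR_Y Γ g n) := by
  obtain ⟨-, -, hcX, -⟩ := ENR_XFL Γ
  obtain ⟨-, hT2, -⟩ := EN.XTX_proof ENR_XFL Γ hΓ
  obtain ⟨-, -, hcpt, -⟩ := RS.GLC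
  have := hT2
  have hA : IsCompact {h : SL(2, ℝ) | h • I ∈ Metric.closedBall I 2} :=
    hcpt _ (isCompact_closedBall I 2)
  have hent : ∀ i j : Fin 2, Continuous (fun h : SL(2, ℝ) => h.1 i j) := fun i j => by
    have h1 : Continuous (fun h : SL(2, ℝ) => h.1) := continuous_subtype_val
    exact (continuous_apply j).comp ((continuous_apply i).comp h1)
  have hth : Continuous th := by
    unfold th
    exact (((hent 0 0).mul (hent 1 0)).abs).max (((hent 0 1).mul (hent 1 1)).abs)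
  have hB : IsClosed {h : SL(2, ℝ) | th h ≤ Real.exp (-n)} := isClosed_le hth continuous_const
  have hC := hA.inter_right hB
  have heq : ENR_Y Γ g n = (fun h => mkX Γ (g * h)) ''
      ({h : SL(2, ℝ) | h • I ∈ Metric.closedBall I 2} ∩ {h : SL(2, ℝ) | th h ≤ Real.exp (-n)}) := by
    ext y
    constructor
    · rintro ⟨h, ⟨h1, h2⟩, h3⟩
      exact ⟨h, ⟨h2, h3⟩, h1.symm⟩
    · rintro ⟨h, ⟨h2, h3⟩, h1⟩
      exact ⟨h, ⟨h1.symm, h2⟩, h3⟩
  rw [heq]
  exact (hC.image (hcX.comp (continuous_const.mul continuous_id))).isClosed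

theorem ENR_wm1 (Γ : Subgroup SL(2, ℝ)) (μ : Measure (XG Γ)) (𝒢 : Set (XG Γ)) (hμ : IsProbabilityMeasure μ)
    (h : ∀ x, 0 ≤ wt Γ 𝒢 x ∧ wt Γ 𝒢 x ≤ 1) : wm Γ μ 𝒢 univ ≤ 1 := by
  unfold wm
  rw [withDensity_apply _ MeasurableSet.univ, Measure.restrict_univ]
  calc ∫⁻ x, ENNReal.ofReal (wt Γ 𝒢 x) ∂μ ≤ ∫⁻ _, 1 ∂μ := by
        apply lintegral_mono
        intro x
        rw [← ENNReal.ofReal_one]
        exact ENNReal.ofReal_le_ofReal (h x).2
    _ = 1 := by simp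

theorem ENR_proof (h1 : CRS_stmt) (h2 : KFN_stmt) (h3 : CVD_stmt) (h4 : BXR_stmt) (h5 : WGT_stmt) :
    ENR_stmt := by
  intro Γ μ 𝒢 r C v w hΓ hμ hinv h𝒢 hr hr1 hw hw1 hwv hbox
  obtain ⟨C₀, hC₀, hcrs⟩ := h1
  obtain ⟨N₀, hkfn⟩ := h2 Γ hΓ
  obtain ⟨C₁, U, hC₁, hcvd⟩ := h3 4 r (by norm_num) hr hr1
  obtain ⟨hwm, hw01, -, -⟩ := h5 Γ μ 𝒢 hΓ hμ hinv h𝒢
  have hσ1 : wm Γ μ 𝒢 univ ≤ 1 := ENR_wm1 Γ μ 𝒢 hμ hw01
  set σ := wm Γ μ 𝒢 with hσ
  have hfin : IsFiniteMeasure σ := ⟨lt_of_le_of_lt hσ1 ENNReal.one_lt_top⟩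
  -- the constant for `Y_n`
  set C₂ : ℝ := U.card * (|C| * C₁ ^ v) + (C₁ / r) ^ v with hC₂
  have hC₂0 : 0 ≤ C₂ := by positivity
  have hY : ∀ (g : SL(2, ℝ)) (n : ℕ), σ (ENR_Y Γ g n) ≤ ENNReal.ofReal (C₂ * Real.exp (-(n * v))) := by
    intro g n
    have hv : 0 < v := hw.trans hwv
    have hex : Real.exp (-(n * v)) = Real.exp (-(n : ℝ)) ^ v := by
      rw [← Real.exp_mul]; congr 1; ring
    rcases le_or_gt (C₁ * Real.exp (-(n : ℝ))) r with hc | hc
    · have hsub : ENR_Y Γ g n ⊆ ⋃ u ∈ U, Bx Γ r (C₁ * Real.exp (-(n : ℝ))) (mkX Γ (g * u)) := by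
        rintro y ⟨h, ⟨hy, hd⟩, hth⟩
        obtain ⟨u, hu, h'', hh, hbx⟩ := hcvd h _ (Real.exp_pos _) (ENR_ent h hd) hth
        refine Set.mem_biUnion (show u ∈ (U : Set SL(2, ℝ)) from hu) ?_
        exact ⟨g * u, h'', hbx, rfl, by rw [hy, hh, mul_assoc]⟩
      have hτ0 : 0 < C₁ * Real.exp (-(n : ℝ)) := mul_pos hC₁ (Real.exp_pos _)
      calc σ (ENR_Y Γ g n) ≤ σ (⋃ u ∈ U, Bx Γ r (C₁ * Real.exp (-(n : ℝ))) (mkX Γ (g * u))) :=
            measure_mono hsub
        _ ≤ ∑ u ∈ U, σ (Bx Γ r (C₁ * Real.exp (-(n : ℝ))) (mkX Γ (g * u))) :=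
            measure_biUnion_finset_le _ _
        _ ≤ ∑ u ∈ U, ENNReal.ofReal (|C| * C₁ ^ v * Real.exp (-(n * v))) := by
            apply Finset.sum_le_sum
            intro u _
            rw [← ENNReal.ofReal_toReal (measure_ne_top σ (Bx Γ r (C₁ * Real.exp (-(n : ℝ))) (mkX Γ (g * u))))]
            apply ENNReal.ofReal_le_ofReal
            have e1 := hbox (mkX Γ (g * u)) _ hτ0 hc
            calc σ.real (Bx Γ r (C₁ * Real.exp (-(n : ℝ))) (mkX Γ (g * u))) ≤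
                C * (C₁ * Real.exp (-(n : ℝ))) ^ v := e1
              _ ≤ |C| * (C₁ * Real.exp (-(n : ℝ))) ^ v :=
                mul_le_mul_of_nonneg_right (le_abs_self C) (Real.rpow_nonneg hτ0.le _)
              _ = _ := by rw [Real.mul_rpow hC₁.le (Real.exp_pos _).le, hex]; ring
        _ = ENNReal.ofReal (U.card * (|C| * C₁ ^ v * Real.exp (-(n * v)))) := by
            rw [Finset.sum_const, nsmul_eq_mul, ← ENNReal.ofReal_natCast,
              ← ENNReal.ofReal_mul (by positivity)]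
        _ ≤ _ := by
            apply ENNReal.ofReal_le_ofReal
            rw [hC₂, add_mul]
            have : 0 ≤ (C₁ / r) ^ v * Real.exp (-(n * v)) := by positivity
            linarith
    · calc σ (ENR_Y Γ g n) ≤ σ univ := measure_mono (subset_univ _)
        _ ≤ 1 := hσ1
        _ = ENNReal.ofReal 1 := ENNReal.ofReal_one.symm
        _ ≤ _ := by
            apply ENNReal.ofReal_le_ofReal
            have e1 : 1 ≤ (C₁ * Real.exp (-(n : ℝ)) / r) ^ v := by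
              apply Real.one_le_rpow _ hv.le
              rw [le_div_iff₀ hr]; linarith
            have e2 : (C₁ * Real.exp (-(n : ℝ)) / r) ^ v = (C₁ / r) ^ v * Real.exp (-(n * v)) := by
              rw [hex, ← Real.mul_rpow (by positivity) (Real.exp_pos _).le]
              congr 1; ring
            rw [hC₂, add_mul]
            have : 0 ≤ (U.card * (|C| * C₁ ^ v)) * Real.exp (-(n * v)) := by positivity
            linarith
  -- the sum
  set q : ℝ := Real.exp (-(v - w)) with hq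
  have hq0 : 0 < q := Real.exp_pos _
  have hq1 : q < 1 := by
    rw [hq, ← Real.exp_zero]; exact Real.exp_lt_exp.mpr (by linarith)
  refine ⟨N₀ * C₀ * (1 + C₂ * Real.exp w * (1 - q)⁻¹), ?_⟩
  intro x ρ hρ hρ1
  obtain ⟨-, -, -, -, hsX, -⟩ := ENR_XFL Γ
  obtain ⟨g, rfl⟩ := hsX x
  set Φ : XG Γ → ENNReal := fun y => 1 + ∑' n : ℕ, (ENR_Y Γ g n).indicator
    (fun _ => ENNReal.ofReal (Real.exp ((n + 1) * w))) y with hΦ
  have hone : ∀ (y : XG Γ) (h : SL(2, ℝ)), y = mkX Γ (g * h) → dist (h • I) I ≤ 2 →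
      volume (ENR_S ρ h) ≤ ENNReal.ofReal (C₀ * ρ ^ (1 + w)) * Φ y := by
    intro y h hy hd
    have hfS : volume (ENR_S ρ h) ≠ ⊤ := by
      apply ne_top_of_le_ne_top _ (measure_mono (show ENR_S ρ h ⊆ Sq from fun u hu => hu.1))
      unfold Sq
      exact (isCompact_Icc.prod isCompact_Icc).measure_lt_top.ne
    have hV := hcrs h ρ hρ hρ1
    obtain ⟨b1, b2⟩ := ENR_one _ C₀ ρ w (th h) measureReal_nonneg hρ hρ1 hw hw1 hC₀ hV.1 hV.2
    have hVe : volume (ENR_S ρ h) = ENNReal.ofReal ((volume : Measure (ℝ × ℝ)).real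
        {u | u ∈ Sq ∧ dist (RS.aM u.1 • I) ((h * RS.aM u.2) • I) < ρ}) :=
      (ENNReal.ofReal_toReal hfS).symm
    rw [hVe]
    rcases le_or_gt (th h) 1 with hth | hth
    · obtain ⟨n, hn, hn2⟩ := b2 hth
      calc _ ≤ ENNReal.ofReal (C₀ * ρ ^ (1 + w) * Real.exp ((n + 1) * w)) :=
            ENNReal.ofReal_le_ofReal hn2
        _ = ENNReal.ofReal (C₀ * ρ ^ (1 + w)) * ENNReal.ofReal (Real.exp ((n + 1) * w)) :=
            ENNReal.ofReal_mul (by positivity)
        _ ≤ _ := by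
            apply mul_le_mul_right
            rw [hΦ]
            have hyn : y ∈ ENR_Y Γ g n := ⟨h, ⟨hy, hd⟩, hn⟩
            have e1 : (ENR_Y Γ g n).indicator
                (fun _ => ENNReal.ofReal (Real.exp ((n + 1) * w))) y =
                ENNReal.ofReal (Real.exp ((n + 1) * w)) := Set.indicator_of_mem hyn _
            have e2 : (ENR_Y Γ g n).indicator
                (fun _ => ENNReal.ofReal (Real.exp ((n + 1) * w))) y ≤
                ∑' n : ℕ, (ENR_Y Γ g n).indicator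
                (fun _ => ENNReal.ofReal (Real.exp ((n + 1) * w))) y :=
              ENNReal.le_tsum (f := fun n : ℕ => (ENR_Y Γ g n).indicator
                (fun _ => ENNReal.ofReal (Real.exp ((n + 1) * w))) y) n
            rw [e1] at e2
            exact e2.trans le_add_self
    · calc _ ≤ ENNReal.ofReal (C₀ * ρ ^ (1 + w)) := ENNReal.ofReal_le_ofReal (b1 hth)
        _ = ENNReal.ofReal (C₀ * ρ ^ (1 + w)) * 1 := (mul_one _).symm
        _ ≤ _ := by
            apply mul_le_mul_right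
            rw [hΦ]
            exact le_self_add
  have hpt : ∀ y, volume {u : ℝ × ℝ | u ∈ Sq ∧ DX Γ ρ (fl Γ u.1 (mkX Γ g)) (fl Γ u.2 y)} ≤
      N₀ * ENNReal.ofReal (C₀ * ρ ^ (1 + w)) * Φ y := by
    intro y
    obtain ⟨hHf, hHc⟩ := hkfn g y
    calc _ ≤ volume (⋃ h ∈ {h : SL(2, ℝ) | y = mkX Γ (g * h) ∧ dist (h • I) I ≤ 2}, ENR_S ρ h) :=
          measure_mono (ENR_cover Γ g y ρ hρ1)
      _ = volume (⋃ h ∈ hHf.toFinset, ENR_S ρ h) := by
          congr 1
          simp only [Set.Finite.mem_toFinset]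
      _ ≤ ∑ h ∈ hHf.toFinset, volume (ENR_S ρ h) := measure_biUnion_finset_le _ _
      _ ≤ ∑ h ∈ hHf.toFinset, ENNReal.ofReal (C₀ * ρ ^ (1 + w)) * Φ y := by
          apply Finset.sum_le_sum
          intro h hh
          rw [Set.Finite.mem_toFinset] at hh
          exact hone y h hh.1 hh.2
      _ = hHf.toFinset.card * (ENNReal.ofReal (C₀ * ρ ^ (1 + w)) * Φ y) := by
          rw [Finset.sum_const, nsmul_eq_mul]
      _ ≤ N₀ * (ENNReal.ofReal (C₀ * ρ ^ (1 + w)) * Φ y) := by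
          apply mul_le_mul_left
          rw [Set.ncard_eq_toFinset_card _ hHf] at hHc
          exact_mod_cast hHc
      _ = _ := by rw [mul_assoc]
  have hΦm : ∀ n : ℕ, Measurable ((ENR_Y Γ g n).indicator
      (fun _ => ENNReal.ofReal (Real.exp ((n + 1) * w)))) := fun n =>
    measurable_const.indicator (ENR_Yc Γ hΓ g n).measurableSet
  have hΦM : Measurable Φ := by
    rw [hΦ]
    exact measurable_const.add (Measurable.ennreal_tsum hΦm)
  have hint : ∫⁻ y, Φ y ∂σ ≤ ENNReal.ofReal (1 + C₂ * Real.exp w * (1 - q)⁻¹) := by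
    rw [hΦ, lintegral_add_left measurable_const, lintegral_const, one_mul,
      lintegral_tsum (fun n => (hΦm n).aemeasurable)]
    rw [ENNReal.ofReal_add zero_le_one (by
      have : 0 < 1 - q := by linarith
      positivity), ENNReal.ofReal_one]
    apply add_le_add hσ1
    calc ∑' n : ℕ, ∫⁻ y, (ENR_Y Γ g n).indicator
          (fun _ => ENNReal.ofReal (Real.exp ((n + 1) * w))) y ∂σ ≤
          ∑' n : ℕ, ENNReal.ofReal (C₂ * Real.exp w * q ^ n) := by
          apply ENNReal.tsum_le_tsum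
          intro n
          rw [lintegral_indicator_const (ENR_Yc Γ hΓ g n).measurableSet]
          calc ENNReal.ofReal (Real.exp ((n + 1) * w)) * σ (ENR_Y Γ g n) ≤
              ENNReal.ofReal (Real.exp ((n + 1) * w)) * ENNReal.ofReal (C₂ * Real.exp (-(n * v))) :=
              mul_le_mul_right (hY g n) _
            _ = ENNReal.ofReal (Real.exp ((n + 1) * w) * (C₂ * Real.exp (-(n * v)))) :=
              (ENNReal.ofReal_mul (Real.exp_pos _).le).symm
            _ = _ := by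
              congr 1
              rw [hq, ← Real.exp_nat_mul]
              have : Real.exp ((n + 1) * w) * (C₂ * Real.exp (-(n * v))) =
                  C₂ * (Real.exp ((n + 1) * w) * Real.exp (-(n * v))) := by ring
              rw [this, mul_assoc C₂, ← Real.exp_add, ← Real.exp_add]
              congr 2; ring
      _ = ENNReal.ofReal (∑' n : ℕ, C₂ * Real.exp w * q ^ n) := by
          rw [ENNReal.ofReal_tsum_of_nonneg (fun n => by positivity)
            ((summable_geometric_of_lt_one hq0.le hq1).mul_left _)]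
      _ = _ := by rw [tsum_mul_left, tsum_geometric_of_lt_one hq0.le hq1]
  calc _ ≤ ∫⁻ y, N₀ * ENNReal.ofReal (C₀ * ρ ^ (1 + w)) * Φ y ∂σ := lintegral_mono hpt
    _ = N₀ * ENNReal.ofReal (C₀ * ρ ^ (1 + w)) * ∫⁻ y, Φ y ∂σ := lintegral_const_mul _ hΦM
    _ ≤ N₀ * ENNReal.ofReal (C₀ * ρ ^ (1 + w)) *
        ENNReal.ofReal (1 + C₂ * Real.exp w * (1 - q)⁻¹) := mul_le_mul_right hint _
    _ = _ := by
        rw [← ENNReal.ofReal_natCast, ← ENNReal.ofReal_mul (by positivity),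
          ← ENNReal.ofReal_mul (by positivity)]
        congr 1
        ring

end Pool.Agent.LL
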